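import Pool.Agent.helper49.SP.SpecAS

/-!
# sp:ASF3  semantics of fNP
-/

namespace TP

open DP MeasureTheory

theorem ASF3_logic1 {W : Type} (X : Set W) (P0 P1 P2 P3 P4 P5 Q0 Q : W → Prop)
    (h0 : ∀ v, P0 v ↔ Q0 v) (h : ∀ v, (P1 v ∨ P2 v ∨ P3 v ∨ P4 v ∨ P5 v) ↔ Q v) :
    ((¬ ∃ v ∈ X, P0 v) ∨ (((∃ v ∈ X, P1 v) ∨ ∃ v ∈ X, P2 v) ∨
      ((∃ v ∈ X, P3 v) ∨ ((∃ v ∈ X, P4 v) ∨ ∃ v ∈ X, P5 v)))) ↔
    ¬ ((∃ v ∈ X, Q0 v) ∧ ∀ v ∈ X, ¬ Q v) := by
  constructor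
  · rintro (h1 | ((⟨v, hv, h2⟩ | ⟨v, hv, h2⟩) | (⟨v, hv, h2⟩ | (⟨v, hv, h2⟩ | ⟨v, hv, h2⟩))))
      ⟨⟨w, hw, hw'⟩, h3⟩
    · exact h1 ⟨w, hw, (h0 w).mpr hw'⟩
    · exact h3 v hv ((h v).mp (Or.inl h2))
    · exact h3 v hv ((h v).mp (Or.inr (Or.inl h2)))
    · exact h3 v hv ((h v).mp (Or.inr (Or.inr (Or.inl h2))))
    · exact h3 v hv ((h v).mp (Or.inr (Or.inr (Or.inr (Or.inl h2)))))
    · exact h3 v hv ((h v).mp (Or.inr (Or.inr (Or.inr (Or.inr h2)))))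
  · intro h1
    by_cases h2 : ∃ v ∈ X, P0 v
    · right
      by_contra h3
      refine h1 ⟨?_, ?_⟩
      · obtain ⟨v, hv, hv'⟩ := h2
        exact ⟨v, hv, (h0 v).mp hv'⟩
      · intro v hv hq
        rcases (h v).mpr hq with h4 | h4 | h4 | h4 | h4
        · exact h3 (Or.inl (Or.inl ⟨v, hv, h4⟩))
        · exact h3 (Or.inl (Or.inr ⟨v, hv, h4⟩))
        · exact h3 (Or.inr (Or.inl ⟨v, hv, h4⟩))
        · exact h3 (Or.inr (Or.inr (Or.inl ⟨v, hv, h4⟩)))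
        · exact h3 (Or.inr (Or.inr (Or.inr ⟨v, hv, h4⟩)))
    · exact Or.inl h2

theorem ASF3_logic2 {W : Type} (X : Set W) (P0 P1 P2 P3 P4 P5 Q0 Q : W → Prop)
    (h0 : ∀ v, Q0 v → P0 v) (h : ∀ v, (P1 v ∨ P2 v ∨ P3 v ∨ P4 v ∨ P5 v) → Q v) :
    ((¬ ∃ v ∈ X, P0 v) ∨ (((∃ v ∈ X, P1 v) ∨ ∃ v ∈ X, P2 v) ∨
      ((∃ v ∈ X, P3 v) ∨ ((∃ v ∈ X, P4 v) ∨ ∃ v ∈ X, P5 v)))) →
    ¬ ((∃ v ∈ X, Q0 v) ∧ ∀ v ∈ X, ¬ Q v) := by
  rintro (h1 | ((⟨v, hv, h2⟩ | ⟨v, hv, h2⟩) | (⟨v, hv, h2⟩ | (⟨v, hv, h2⟩ | ⟨v, hv, h2⟩))))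
    ⟨⟨w, hw, hw'⟩, h3⟩
  · exact h1 ⟨w, hw, h0 w hw'⟩
  · exact h3 v hv ((h v) (Or.inl h2))
  · exact h3 v hv ((h v) (Or.inr (Or.inl h2)))
  · exact h3 v hv ((h v) (Or.inr (Or.inr (Or.inl h2))))
  · exact h3 v hv ((h v) (Or.inr (Or.inr (Or.inr (Or.inl h2)))))
  · exact h3 v hv ((h v) (Or.inr (Or.inr (Or.inr (Or.inr h2)))))

theorem ASF3_sd (p v : V) (n : ℕ) : sd p v ≤ n ↔
    (p.1 - v.1 ≤ n ∧ v.1 - p.1 ≤ n ∧ p.2 - v.2 ≤ n ∧ v.2 - p.2 ≤ n) := by
  unfold sd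
  omega

theorem ASF3_sd' (p v : V) (n : ℕ) : sd p v < n ↔
    (p.1 - v.1 < n ∧ v.1 - p.1 < n ∧ p.2 - v.2 < n ∧ v.2 - p.2 < n) := by
  unfold sd
  omega

theorem ASF3_sd2 (p v : V) (n : ℕ) : n ≤ sd p v ↔
    ((n : ℤ) ≤ p.1 - v.1 ∨ (n : ℤ) ≤ v.1 - p.1 ∨ (n : ℤ) ≤ p.2 - v.2 ∨ (n : ℤ) ≤ v.2 - p.2) := by
  unfold sd
  omega

theorem ASF3_sd3 (p v : V) (n : ℕ) : n < sd p v ↔
    ((n : ℤ) < p.1 - v.1 ∨ (n : ℤ) < v.1 - p.1 ∨ (n : ℤ) < p.2 - v.2 ∨ (n : ℤ) < v.2 - p.2) := by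
  unfold sd
  omega

theorem ASF3 : ASF3_stmt := by
  intro u X z x h r d R hu hx hr hd hR
  have e1 : ((2 * r * u : ℕ) : ℤ) = 2 * ((r : ℤ) * u) := by push_cast; ring
  have e2 : ((R * u : ℕ) : ℤ) = (R : ℤ) * u := by push_cast; ring
  have e3 : ((r * u : ℕ) : ℤ) = (r : ℤ) * u := by push_cast; ring
  have e4 : ((2 * R * u : ℕ) : ℤ) = 2 * ((R : ℤ) * u) := by push_cast; ring
  have e5 : ((d * u : ℕ) : ℤ) = (d : ℤ) * u := by push_cast; ring
  have hu' : (1 : ℤ) ≤ u := by exact_mod_cast hu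
  have h1 : (u : ℤ) ≤ (r : ℤ) * u := by
    have : (1 : ℤ) ≤ r := by exact_mod_cast hr
    nlinarith
  have h2 : 8 * ((r : ℤ) * u) ≤ (d : ℤ) * u := by
    have : (8 * r : ℤ) ≤ d := by exact_mod_cast hd
    nlinarith
  have h3 : 4 * ((d : ℤ) * u) ≤ (R : ℤ) * u := by
    have : (4 * d : ℤ) ≤ R := by exact_mod_cast hR
    nlinarith
  subst hx
  cases h
  · refine ⟨?_, ?_⟩
    · simp only [fNP, Bool.false_eq_true, if_false, satC, yy, WW, Set.mem_ofPred_eq]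
      refine ASF3_logic1 X _ _ _ _ _ _ _ _ (fun v => ?_) (fun v => ?_)
      · rw [ASF3_sd']
        simp only [e5, add_mul, sub_mul, mul_assoc]
        generalize (r : ℤ) * u = ru at *
        generalize (d : ℤ) * u = du at *
        generalize (R : ℤ) * u = Ru at *
        generalize z.1 * (u : ℤ) = a at *
        generalize z.2 * (u : ℤ) = b at *
        omega
      · rw [ASF3_sd, ASF3_sd2, ASF3_sd2]
        simp only [e2, e5, add_mul, sub_mul, mul_assoc]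
        generalize (r : ℤ) * u = ru at *
        generalize (d : ℤ) * u = du at *
        generalize (R : ℤ) * u = Ru at *
        generalize z.1 * (u : ℤ) = a at *
        generalize z.2 * (u : ℤ) = b at *
        omega
    · simp only [fNP, Bool.false_eq_true, if_false, satO, yy, WS, Set.mem_ofPred_eq]
      refine ASF3_logic2 X _ _ _ _ _ _ _ _ (fun v => ?_) (fun v => ?_)
      · rw [ASF3_sd]
        simp only [e3, e5, add_mul, sub_mul, mul_assoc, one_mul]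
        generalize (r : ℤ) * u = ru at *
        generalize (d : ℤ) * u = du at *
        generalize (R : ℤ) * u = Ru at *
        generalize z.1 * (u : ℤ) = a at *
        generalize z.2 * (u : ℤ) = b at *
        omega
      · rw [ASF3_sd', ASF3_sd3, ASF3_sd3]
        simp only [e3, e5, add_mul, sub_mul, mul_assoc, one_mul]
        generalize (r : ℤ) * u = ru at *
        generalize (d : ℤ) * u = du at *
        generalize (R : ℤ) * u = Ru at *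
        generalize z.1 * (u : ℤ) = a at *
        generalize z.2 * (u : ℤ) = b at *
        omega
  · refine ⟨?_, ?_⟩
    · simp only [fNP, if_true, satC, yy, WW, Set.mem_ofPred_eq]
      refine ASF3_logic1 X _ _ _ _ _ _ _ _ (fun v => ?_) (fun v => ?_)
      · rw [ASF3_sd']
        simp only [e5, add_mul, sub_mul, mul_assoc]
        generalize (r : ℤ) * u = ru at *
        generalize (d : ℤ) * u = du at *
        generalize (R : ℤ) * u = Ru at *
        generalize z.1 * (u : ℤ) = a at *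
        generalize z.2 * (u : ℤ) = b at *
        omega
      · rw [ASF3_sd, ASF3_sd2, ASF3_sd2]
        simp only [e2, e5, add_mul, sub_mul, mul_assoc]
        generalize (r : ℤ) * u = ru at *
        generalize (d : ℤ) * u = du at *
        generalize (R : ℤ) * u = Ru at *
        generalize z.1 * (u : ℤ) = a at *
        generalize z.2 * (u : ℤ) = b at *
        omega
    · simp only [fNP, if_true, satO, yy, WS, Set.mem_ofPred_eq]
      refine ASF3_logic2 X _ _ _ _ _ _ _ _ (fun v => ?_) (fun v => ?_)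
      · rw [ASF3_sd]
        simp only [e3, e5, add_mul, sub_mul, mul_assoc, one_mul]
        generalize (r : ℤ) * u = ru at *
        generalize (d : ℤ) * u = du at *
        generalize (R : ℤ) * u = Ru at *
        generalize z.1 * (u : ℤ) = a at *
        generalize z.2 * (u : ℤ) = b at *
        omega
      · rw [ASF3_sd', ASF3_sd3, ASF3_sd3]
        simp only [e3, e5, add_mul, sub_mul, mul_assoc, one_mul]
        generalize (r : ℤ) * u = ru at *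
        generalize (d : ℤ) * u = du at *
        generalize (R : ℤ) * u = Ru at *
        generalize z.1 * (u : ℤ) = a at *
        generalize z.2 * (u : ℤ) = b at *
        omega

end TP
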