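import Pool.Agent.helper33.SP.SpecC1S

/-!
# sp:UJ4  the crossing event depends on the coins in `VV i` and is increasing
-/

namespace TP

open DP MeasureTheory

theorem UJ4_con_mono {W W' : Set V} (h : W ⊆ W') {u v : V} (hc : Con W u v) : Con W' u v :=
  ⟨h hc.1, Relation.ReflTransGen.mono (fun _ _ hab => ⟨hab.1, h hab.2⟩) _ _ hc.2⟩

theorem UJ4_hcross_mono {c c' : V → Bool} {a b d e : ℤ}
    (h : ∀ v ∈ rect a b d e, c v = true → c' v = true) (hc : hcross c true a b d e) :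
    hcross c' true a b d e := by
  obtain ⟨u, v, hu, hv, h1⟩ := hc
  have h2 : {w | w ∈ rect a b d e ∧ c w = true} ⊆ {w | w ∈ rect a b d e ∧ c' w = true} :=
    fun w hw => ⟨hw.1, h w hw.1 hw.2⟩
  exact ⟨u, v, hu, hv, UJ4_con_mono h2 h1⟩

theorem UJ4_br (i : ℕ) (v : V) (hv : v ∈ rect 1 (2 * 2 ^ i) 0 (hh (2 ^ i))) : br v ∈ VV i := by
  obtain ⟨h1, h2, h3, h4⟩ := hv
  unfold br VV
  simp only [Finset.mem_filter, Finset.mem_product, Finset.mem_Icc]
  split_ifs with h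
  · exact ⟨⟨⟨by omega, h2⟩, h3, h4⟩, h⟩
  · refine ⟨⟨⟨?_, ?_⟩, h3, h4⟩, ?_⟩
    · show 0 ≤ v.1 - 1
      omega
    · show v.1 - 1 ≤ 2 * 2 ^ i
      omega
    · show (v.1 - 1 + v.2) % 2 = 0
      omega

theorem UJ4 : UJ4_stmt := by
  intro i
  refine ⟨?_, ?_⟩
  · have key : ∀ b b' : V → Bool, (∀ v ∈ (VV i : Set V), b v = b' v) → b ∈ Fc i → b' ∈ Fc i := by
      intro b b' h hb
      refine UJ4_hcross_mono (c := TP.col b) (fun v hv h1 => ?_) hb
      have h2 := h (br v) (by exact_mod_cast UJ4_br i v hv)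
      unfold TP.col at h1 ⊢
      rw [← h2]
      exact h1
    intro b b' h
    exact ⟨key b b' h, key b' b fun v hv => (h v hv).symm⟩
  · intro b b' h hb
    exact UJ4_hcross_mono (c := TP.col b) (fun v _ h1 => h (br v) h1) hb

end TP
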